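import Pool.Agent.Q62.TTD.Free

/-!
# Large free families
-/

set_option autoImplicit false

universe u

open Cardinal

namespace Pool.Agent.Q62.TTD

/-- Transfinite iteration of `B ↦ B ∪ g B`. -/
noncomputable def Bseq {Ω : Type*} (g : Set Ω → Set Ω) {ι : Type*} [LinearOrder ι]
    [WellFoundedLT ι] : ι → Set Ω :=
  WellFoundedLT.fix (fun i ih => ⋃ j : Set.Iio i, (ih j.1 j.2 ∪ g (ih j.1 j.2)))

theorem Bseq_def {Ω : Type*} (g : Set Ω → Set Ω) {ι : Type*} [LinearOrder ι]
    [WellFoundedLT ι] (i : ι) : Bseq g i = ⋃ j : Set.Iio i, (Bseq g j.1 ∪ g (Bseq g j.1)) := by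
  rw [Bseq, WellFoundedLT.fix_eq]

theorem subset_Bseq {Ω : Type*} (g : Set Ω → Set Ω) {ι : Type*} [LinearOrder ι]
    [WellFoundedLT ι] {i j : ι} (h : j < i) : Bseq g j ∪ g (Bseq g j) ⊆ Bseq g i := by
  rw [Bseq_def g i]
  exact Set.subset_iUnion (fun j : Set.Iio i => Bseq g j.1 ∪ g (Bseq g j.1)) ⟨j, h⟩

theorem Bseq_mono {Ω : Type*} (g : Set Ω → Set Ω) {ι : Type*} [LinearOrder ι]
    [WellFoundedLT ι] {i j : ι} (h : j ≤ i) : Bseq g j ⊆ Bseq g i := by
  rcases h.eq_or_lt with rfl | h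
  · exact subset_rfl
  · exact Set.subset_union_left.trans (subset_Bseq g h)

theorem Bseq_subset {Ω : Type*} {g : Set Ω → Set Ω} {T : Set Ω} (hg : ∀ B, g B ⊆ T) {ι : Type*}
    [LinearOrder ι] [WellFoundedLT ι] (i : ι) : Bseq g i ⊆ T := by
  induction i using WellFoundedLT.induction with
  | ind i ih =>
    rw [Bseq_def]
    exact Set.iUnion_subset fun j => Set.union_subset (ih j.1 j.2) (hg _)

theorem mk_Bseq_le {Ω : Type u} {g : Set Ω → Set Ω} {T : Set Ω} {κ : Cardinal.{u}}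
    (hκ : ℵ₀ ≤ κ) (hg : ∀ B ⊆ T, #B ≤ κ → #(g B) ≤ κ) (hgT : ∀ B, g B ⊆ T)
    {ι : Type u} [LinearOrder ι] [WellFoundedLT ι] (hι : #ι ≤ κ) (i : ι) : #(Bseq g i) ≤ κ := by
  induction i using WellFoundedLT.induction with
  | ind i ih =>
    rw [Bseq_def]
    refine (mk_iUnion_le _).trans ?_
    have h1 : #(Set.Iio i) ≤ κ := (mk_set_le _).trans hι
    have h2 : ⨆ j : Set.Iio i, #(↥(Bseq g j.1 ∪ g (Bseq g j.1))) ≤ κ := by
      refine ciSup_le' fun j => ?_
      refine (mk_union_le _ _).trans ?_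
      refine (add_le_add (ih j.1 j.2) (hg _ (Bseq_subset hgT _) (ih j.1 j.2))).trans ?_
      rw [add_eq_self hκ]
    exact (mul_le_mul' h1 h2).trans (mul_eq_self hκ).le

theorem exists_bound {f : ℕ → (ℵ₁ : Cardinal.{u}).ord.ToType} :
    ∃ i, ∀ n, f n < i := by
  by_contra hcon
  push Not at hcon
  have h1 : (Set.univ : Set (ℵ₁ : Cardinal.{u}).ord.ToType) ⊆ ⋃ n, Set.Iic (f n) := by
    intro i _
    obtain ⟨n, hn⟩ := hcon i
    exact Set.mem_iUnion.2 ⟨n, hn⟩
  have h2 : (⋃ n, Set.Iic (f n)).Countable := by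
    refine Set.countable_iUnion fun n => ?_
    have h3 : (Set.Iio (f n)).Countable := by
      rw [← le_aleph0_iff_set_countable]
      have h0 := mk_Iio_toType_ord_lt (f n)
      have h1 : (ℵ₁ : Cardinal.{u}) = Order.succ ℵ₀ := succ_aleph0.symm
      exact Order.lt_succ_iff.1 (h0.trans_eq h1)
    have h4 : Set.Iic (f n) = insert (f n) (Set.Iio (f n)) := by
      ext z; simp [le_iff_eq_or_lt]
    rw [h4]
    exact h3.insert _
  have h5 := h2.mono h1
  rw [← le_aleph0_iff_set_countable, mk_univ, mk_ord_toType] at h5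
  exact absurd h5 (not_le.2 aleph0_lt_aleph_one)

variable (k : Type*) {Ω : Type u} [Field k] [NormedField Ω] [Algebra k Ω] [IsUltrametricDist Ω]
  [IsAlgClosed Ω]

/-- If no subset of `T` of cardinality at most `κ`, `ℵ₁ ≤ κ`, generates `T` topologically and
algebraically, then there is a free subset of `T` of cardinality greater than `κ`. -/
theorem exists_large_free (T : Set Ω) (κ : Cardinal.{u}) (hκ : ℵ₁ ≤ κ)
    (hT : ∀ B ⊆ T, #B ≤ κ → ∃ x ∈ T, 0 < D k x B) :
    ∃ B ⊆ T, ∃ S ⊆ T, Free k B S ∧ κ < #S := by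
  by_contra hcon
  push Not at hcon
  have hκ0 : ℵ₀ ≤ κ := (aleph0_lt_aleph_one).le.trans hκ
  choose g hg using fun B => exists_maximal_free k B T
  have hgT : ∀ B, g B ⊆ T := fun B => (hg B).prop.1
  have hgcard : ∀ B ⊆ T, #B ≤ κ → #(g B) ≤ κ := fun B hB _ => hcon B hB _ (hgT B) (hg B).prop.2
  set ι := (ℵ₁ : Cardinal.{u}).ord.ToType with hι
  have hιcard : #ι ≤ κ := by rw [hι, mk_ord_toType]; exact hκ
  set B : Set Ω := ⋃ i : ι, Bseq g i with hB
  have hBT : B ⊆ T := Set.iUnion_subset fun i => Bseq_subset hgT i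
  have hBcard : #B ≤ κ := by
    refine (mk_iUnion_le _).trans ?_
    have h2 : ⨆ i : ι, #(Bseq g i) ≤ κ := ciSup_le' fun i => mk_Bseq_le hκ0 hgcard hgT hιcard i
    exact (mul_le_mul' hιcard h2).trans (mul_eq_self hκ0).le
  obtain ⟨x, hxT, hx⟩ := hT B hBT hBcard
  -- finite subsets of `B` are contained in a member of the chain
  have hfin : ∀ F : Set Ω, F.Finite → F ⊆ B → ∃ i : ι, F ⊆ Bseq g i := by
    intro F hF
    induction F, hF using Set.Finite.induction_on with
    | empty =>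
      intro _
      obtain ⟨i, -⟩ := exists_bound (f := fun _ => (Classical.choice (by
        rw [← mk_ne_zero_iff, mk_ord_toType]
        exact (aleph_pos 1).ne')))
      exact ⟨i, Set.empty_subset _⟩
    | @insert a F _ _ ih =>
      intro h
      obtain ⟨i, hi⟩ := ih ((Set.subset_insert _ _).trans h)
      obtain ⟨j, hj⟩ := Set.mem_iUnion.1 (h (Set.mem_insert _ _))
      refine ⟨max i j, Set.insert_subset (Bseq_mono g (le_max_right _ _) hj)
        (hi.trans (Bseq_mono g (le_max_left _ _)))⟩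
  have hy : ∀ n : ℕ, ∃ i : ι, D k x (Bseq g i) ≤ D k x B + 1 / ((n : ℝ) + 1) := by
    intro n
    obtain ⟨y, hy, hxy⟩ := exists_lt k (show D k x B < D k x B + 1 / ((n : ℝ) + 1) by
      have : (0 : ℝ) < 1 / ((n : ℝ) + 1) := by positivity
      linarith)
    obtain ⟨F, hF, hFfin, hyF⟩ := exists_finite k hy
    obtain ⟨i, hi⟩ := hfin F hFfin hF
    exact ⟨i, (D_le k (cls_mono k hi hyF)).trans hxy.le⟩
  choose f hf using hy
  obtain ⟨i, hi⟩ := exists_bound (f := f)
  have hDi : D k x (Bseq g i) = D k x B := by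
    refine le_antisymm ?_ (D_anti k (Set.subset_iUnion _ i))
    refine le_of_forall_pos_le_add fun ε hε => ?_
    obtain ⟨n, hn⟩ := exists_nat_one_div_lt hε
    have := (D_anti k (x := x) (Bseq_mono g (hi n).le)).trans (hf n)
    linarith
  obtain ⟨i', hi'⟩ := exists_bound (f := fun _ => i)
  have hD2 : D k x (Bseq g i ∪ g (Bseq g i)) = D k x (Bseq g i) := by
    refine le_antisymm (D_anti k Set.subset_union_left) ?_
    rw [hDi]
    exact D_anti k ((subset_Bseq g (hi' 0)).trans (Set.subset_iUnion _ i'))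
  have hfree := (hg (Bseq g i)).prop.2.insert k (x := x) (by rw [hDi]; exact hx) hD2
  have hmax := (hg (Bseq g i)).le_of_ge (y := insert x (g (Bseq g i)))
    ⟨Set.insert_subset hxT (hgT _), hfree⟩ (Set.subset_insert _ _)
  have hxg : x ∈ g (Bseq g i) := hmax (Set.mem_insert _ _)
  have h0 : 0 < D k x (Bseq g i ∪ g (Bseq g i)) := by rw [hD2, hDi]; exact hx
  rw [D_pos_iff] at h0
  exact h0 (subset_closure (subset_cls k _ (Or.inr hxg)))

end Pool.Agent.Q62.TTD
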