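import Pool.Agent.Q62.TTD.Symm

/-!
# The algebraic closure operator inside an algebraically closed valued field
-/

set_option autoImplicit false

open Polynomial

namespace Pool.Agent.Q62.TTD

section alg

variable (k : Type*) {Ω : Type*} [Field k] [Field Ω] [Algebra k Ω]

/-- The elements of `Ω` algebraic over `k(S)`. -/
def cls (S : Set Ω) : Set Ω := {y | IsAlgebraic (IntermediateField.adjoin k S) y}

theorem mem_cls {S : Set Ω} {y : Ω} : y ∈ cls k S ↔ IsAlgebraic (Algebra.adjoin k S) y := by
  open scoped IntermediateField.algebraAdjoinAdjoin in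
  exact (IsFractionRing.isAlgebraic_iff (Algebra.adjoin k S) (IntermediateField.adjoin k S) Ω).symm

theorem cls_eq (S : Set Ω) : cls k S = (AlgebraicIndependent.matroid k Ω).closure S := by
  ext y
  rw [mem_cls, AlgebraicIndependent.matroid_closure_eq]
  simp [Subalgebra.mem_algebraicClosure]

theorem cls_mono {S T : Set Ω} (h : S ⊆ T) : cls k S ⊆ cls k T := by
  rw [cls_eq, cls_eq]
  exact Matroid.closure_subset_closure _ h

theorem subset_cls (S : Set Ω) : S ⊆ cls k S := by
  rw [cls_eq]
  exact Matroid.subset_closure _ S (by simp)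

theorem cls_subset_of_subset {S T : Set Ω} (h : S ⊆ cls k T) : cls k S ⊆ cls k T := by
  rw [cls_eq] at h ⊢
  rw [cls_eq]
  exact Matroid.closure_subset_closure_of_subset_closure h

theorem exists_finite {S : Set Ω} {y : Ω} (h : y ∈ cls k S) :
    ∃ F ⊆ S, F.Finite ∧ y ∈ cls k F := by
  rw [cls_eq] at h
  obtain ⟨F, h1, h2, -, h4⟩ := Matroid.exists_mem_finite_closure_of_mem_closure h
  exact ⟨F, h1, h2, by rwa [cls_eq]⟩

variable [IsAlgClosed Ω]

/-- The set `cls k S` as a subfield. -/
noncomputable def AC (S : Set Ω) : Subfield Ω :=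
  (algebraicClosure (IntermediateField.adjoin k S) Ω).toSubfield

theorem mem_AC {S : Set Ω} {y : Ω} : y ∈ AC k S ↔ y ∈ cls k S := by
  rw [AC, IntermediateField.mem_toSubfield, mem_algebraicClosure_iff]
  rfl

instance (S : Set Ω) : IsAlgClosed (AC k S) :=
  (algebraicClosure.isAlgClosure (IntermediateField.adjoin k S) Ω).isAlgClosed

theorem exists_poly {B : Set Ω} {x y : Ω} (h : y ∈ cls k (insert x B)) :
    ∃ Q : Polynomial (Polynomial (AC k B)), Q ≠ 0 ∧ aevalAeval y x Q = 0 := by
  rw [mem_cls] at h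
  obtain ⟨p, hp, hpy⟩ := h
  -- lift the elements of `k[B, x]` to polynomials in `x` over `AC k B`
  have hlift : ∀ z ∈ Algebra.adjoin k (insert x B), ∃ q : Polynomial (AC k B), aeval x q = z := by
    intro z hz
    induction hz using Algebra.adjoin_induction with
    | mem z hz =>
      rcases hz with rfl | hz
      · exact ⟨X, by simp⟩
      · exact ⟨C ⟨z, (mem_AC k).2 (subset_cls k B hz)⟩, by simp; rfl⟩
    | algebraMap r =>
      refine ⟨C ⟨algebraMap k Ω r, (mem_AC k).2 ?_⟩, by simp; rfl⟩
      exact isAlgebraic_algebraMap (algebraMap k (IntermediateField.adjoin k B) r)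
    | add z w _ _ hz hw =>
      obtain ⟨q, hq⟩ := hz
      obtain ⟨q', hq'⟩ := hw
      exact ⟨q + q', by rw [map_add, hq, hq']⟩
    | mul z w _ _ hz hw =>
      obtain ⟨q, hq⟩ := hz
      obtain ⟨q', hq'⟩ := hw
      exact ⟨q * q', by rw [map_mul, hq, hq']⟩
  choose! g hg using hlift
  set P : Polynomial (Polynomial (AC k B)) :=
    ∑ i ∈ Finset.range (p.natDegree + 1), C (g (p.coeff i : Ω)) * X ^ i with hP
  have hPcoeff : ∀ i ≤ p.natDegree, aeval x (P.coeff i) = (p.coeff i : Ω) := by
    intro i hi
    rw [hP, finset_sum_coeff]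
    simp only [coeff_C_mul_X_pow]
    rw [Finset.sum_ite_eq, if_pos (by simpa using Nat.lt_succ_of_le hi)]
    exact hg _ (p.coeff i).2
  refine ⟨Bivariate.swap P, ?_, ?_⟩
  · intro h0
    have hP0 : P = 0 := by
      have := congrArg Bivariate.swap h0
      rwa [Bivariate.swap_swap_apply, map_zero] at this
    have h1 := hPcoeff p.natDegree le_rfl
    rw [hP0, coeff_zero, map_zero] at h1
    apply hp
    rw [← leadingCoeff_eq_zero]
    exact Subtype.ext h1.symm
  · rw [Bivariate.aevalAeval_swap, ← eval_map_aeval]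
    rw [hP, Polynomial.map_sum, eval_finset_sum]
    rw [aeval_eq_sum_range] at hpy
    rw [← hpy]
    refine Finset.sum_congr rfl fun i _ => ?_
    simp only [Polynomial.map_mul, map_C, Polynomial.map_pow, map_X, eval_mul, eval_C, eval_pow,
      eval_X]
    have := hg _ (p.coeff i).2
    rw [Algebra.smul_def]
    change (aeval x) (g (p.coeff i : Ω)) * y ^ i = _
    rw [this]
    rfl

end alg

end Pool.Agent.Q62.TTD
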