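import Pool.Agent.Q62.TTD.Main

/-!
# The gap theorem
-/

set_option autoImplicit false

universe u v

open Cardinal Polynomial UniformSpace

namespace Pool.Agent.Q62.TTD

theorem ultra (K Ka : Type*) [NormedField K] [IsUltrametricDist K] [NormedField Ka]
    [NormedAlgebra K Ka] : IsUltrametricDist Ka := by
  refine IsUltrametricDist.isUltrametricDist_of_forall_norm_natCast_le_one fun n => ?_
  have h1 : (n : Ka) = algebraMap K Ka (n : K) := by simp
  rw [h1, norm_algebraMap']
  exact IsUltrametricDist.norm_natCast_le_one K n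

variable (k : Type v) {K Ka : Type u} [NormedField k] [NormedField K] [IsUltrametricDist K]
  [NormedField Ka] [NormedAlgebra K Ka] [NormedAlgebra k Ka] [IsAlgClosure K Ka]

omit [IsUltrametricDist K] in
theorem taClosure_eq (S : Set K) :
    taClosure k (algebraMap K (Completion Ka) '' S) =
      closure (algebraMap Ka (Completion Ka) '' cls k (algebraMap K Ka '' S)) := by
  have : IsAlgClosed Ka := IsAlgClosure.isAlgClosed K
  rw [← cls_image, Set.image_image]
  have h : (fun x => algebraMap Ka (Completion Ka) (algebraMap K Ka x)) =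
      algebraMap K (Completion Ka) := by
    ext x
    rw [← IsScalarTower.algebraMap_apply]
  rw [h]
  rfl

theorem generating_of_forall {S : Set K}
    (h : ∀ x : K, algebraMap K Ka x ∈ closure (cls k (algebraMap K Ka '' S))) :
    TAGenerating k (algebraMap K (Completion Ka) '' S) := by
  have : IsAlgClosed Ka := IsAlgClosure.isAlgClosed K
  have : Algebra.IsAlgebraic K Ka := IsAlgClosure.isAlgebraic
  have : IsUltrametricDist Ka := ultra K Ka
  have h1 : Dense (cls k (algebraMap K Ka '' S)) := mem_closure_of_forall k h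
  rw [TAGenerating, taClosure_eq]
  have h2 : DenseRange (algebraMap Ka (Completion Ka)) := Completion.denseRange_coe
  have h3 : Continuous (algebraMap Ka (Completion Ka)) := Completion.continuous_coe Ka
  exact (h2.dense_image h3 h1).closure_eq

theorem independent_of_forall {S : Set K}
    (h : ∀ s ∈ S, 0 < D k (algebraMap K Ka s) (algebraMap K Ka '' (S \ {s}))) :
    TAIndependent k (algebraMap K (Completion Ka) '' S) := by
  intro S' hS'
  have hmono : ∀ {A B : Set (Completion Ka)}, A ⊆ B → taClosure k A ⊆ taClosure k B :=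
    fun h => closure_mono (cls_mono k h)
  refine ⟨hmono hS'.1, fun hcon => ?_⟩
  obtain ⟨a, ⟨s, hs, rfl⟩, ha⟩ := Set.exists_of_ssubset hS'
  have h1 : algebraMap K (Completion Ka) s ∈ taClosure k S' :=
    hcon (subset_closure (subset_cls k _ ⟨s, hs, rfl⟩))
  have h2 : S' ⊆ algebraMap K (Completion Ka) '' (S \ {s}) := by
    intro b hb
    obtain ⟨t, ht, rfl⟩ := hS'.1 hb
    refine ⟨t, ⟨ht, ?_⟩, rfl⟩
    rintro rfl
    exact ha hb
  have h3 := hmono h2 h1
  rw [taClosure_eq] at h3
  have h4 : algebraMap K Ka s ∈ closure (cls k (algebraMap K Ka '' (S \ {s}))) := by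
    have hind : Topology.IsInducing (algebraMap Ka (Completion Ka)) :=
      (Completion.isUniformInducing_coe Ka).isInducing
    rw [hind.closure_eq_preimage_closure_image, Set.mem_preimage,
      ← IsScalarTower.algebraMap_apply]
    exact h3
  exact (D_pos_iff k).1 (h s hs) h4

theorem gap (h : ℵ₁ < Topdeg k K (Completion Ka)) :
    Topdeg k K (Completion Ka) ≤ topdeg k K (Completion Ka) := by
  have : IsAlgClosed Ka := IsAlgClosure.isAlgClosed K
  have : IsUltrametricDist Ka := ultra K Ka
  by_contra hcon
  rw [not_le] at hcon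
  have hinj : Function.Injective (algebraMap K Ka) := (algebraMap K Ka).injective
  set κ := max ℵ₁ (topdeg k K (Completion Ka)) with hκ
  have hκlt : κ < Topdeg k K (Completion Ka) := max_lt h hcon
  have hT : ∀ B ⊆ Set.range (algebraMap K Ka), #B ≤ κ →
      ∃ x ∈ Set.range (algebraMap K Ka), 0 < D k x B := by
    intro B hB hBκ
    obtain ⟨S, rfl⟩ := Set.subset_range_iff_exists_image_eq.1 hB
    rw [mk_image_eq hinj] at hBκ
    by_contra hno
    push Not at hno
    have hgen : TAGenerating k (algebraMap K (Completion Ka) '' S) := by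
      refine generating_of_forall k fun x => ?_
      by_contra hx
      rw [← D_pos_iff] at hx
      exact absurd (hno _ ⟨x, rfl⟩) (not_le.2 hx)
    have : Topdeg k K (Completion Ka) ≤ #S := csInf_le' ⟨S, hgen, rfl⟩
    exact absurd (this.trans hBκ) (not_le.2 hκlt)
  obtain ⟨B, hB, F, hF, hfree, hcard⟩ := exists_large_free k (Set.range (algebraMap K Ka)) κ
    (le_max_left _ _) hT
  obtain ⟨S, rfl⟩ := Set.subset_range_iff_exists_image_eq.1 hF
  rw [mk_image_eq hinj] at hcard
  have hind : TAIndependent k (algebraMap K (Completion Ka) '' S) := by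
    refine independent_of_forall k fun s hs => ?_
    obtain ⟨h1, h2⟩ := hfree _ ⟨s, hs, rfl⟩
    refine lt_of_lt_of_le (h2 ▸ h1) (D_anti k ?_)
    refine Set.subset_union_of_subset_right ?_ _
    rintro _ ⟨t, ht, rfl⟩
    exact ⟨⟨t, ht.1, rfl⟩, fun h => ht.2 (hinj h)⟩
  have hle : #S ≤ topdeg k K (Completion Ka) :=
    le_ciSup (f := fun S : {S : Set K // TAIndependent k (algebraMap K (Completion Ka) '' S)} =>
      #S.1) bddAbove_of_small ⟨S, hind⟩
  exact absurd (hcard.trans_le (hle.trans (le_max_right _ _))) (lt_irrefl _)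

end Pool.Agent.Q62.TTD
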