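import Pool.Agent.Q62.TTD.Cls

/-!
# Free families over an algebraically closed base
-/

set_option autoImplicit false

open Polynomial

namespace Pool.Agent.Q62.TTD

variable (k : Type*) {Ω : Type*} [Field k] [NormedField Ω] [Algebra k Ω]

/-- The distance of `x` to the algebraic closure of `k(S)`. -/
noncomputable def D (x : Ω) (S : Set Ω) : ℝ := Metric.infDist x (cls k S)

theorem cls_nonempty (S : Set Ω) : (cls k S).Nonempty :=
  ⟨0, isAlgebraic_zero⟩

theorem D_le {x y : Ω} {S : Set Ω} (hy : y ∈ cls k S) : D k x S ≤ ‖x - y‖ := by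
  rw [← dist_eq_norm]
  exact Metric.infDist_le_dist_of_mem hy

theorem exists_lt {x : Ω} {S : Set Ω} {r : ℝ} (h : D k x S < r) : ∃ y ∈ cls k S, ‖x - y‖ < r := by
  obtain ⟨y, hy, h⟩ := (Metric.infDist_lt_iff (cls_nonempty k S)).1 h
  exact ⟨y, hy, by rwa [← dist_eq_norm]⟩

theorem le_D {x : Ω} {S : Set Ω} {r : ℝ} (h : ∀ y ∈ cls k S, r ≤ ‖x - y‖) : r ≤ D k x S := by
  by_contra hlt
  obtain ⟨y, hy, h'⟩ := exists_lt k (not_le.1 hlt)
  exact absurd (h y hy) (not_le.2 h')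

theorem D_anti {x : Ω} {S T : Set Ω} (h : S ⊆ T) : D k x T ≤ D k x S :=
  le_D k fun _ hy => D_le k (cls_mono k h hy)

theorem D_nonneg (x : Ω) (S : Set Ω) : 0 ≤ D k x S := Metric.infDist_nonneg

theorem D_pos_iff {x : Ω} {S : Set Ω} : 0 < D k x S ↔ x ∉ closure (cls k S) := by
  rw [Metric.mem_closure_iff_infDist_zero (cls_nonempty k S)]
  constructor
  · intro h h'
    rw [D, h'] at h
    exact lt_irrefl _ h
  · intro h
    exact lt_of_le_of_ne (D_nonneg k x S) (Ne.symm h)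

variable [IsUltrametricDist Ω] [IsAlgClosed Ω]

omit [Algebra k Ω] [IsAlgClosed Ω] in
/-- Symmetry for subfields. -/
theorem symm_subfield (M L : Subfield Ω) [IsAlgClosed M] [IsAlgClosed L] (hle : M ≤ L) {s x : Ω}
    (hsL : s ∈ L) {r ρ : ℝ} (hr : 0 < r) (hρ : 0 < ρ) (hx : ∀ y ∈ L, r ≤ ‖x - y‖)
    (hxM : ∀ r' > r, ∃ a ∈ M, ‖x - a‖ < r') (hs : ∀ y ∈ M, ρ ≤ ‖s - y‖)
    (hsM : ∀ r' > ρ, ∃ a ∈ M, ‖s - a‖ < r') {w : Ω} (Q : Polynomial (Polynomial M))
    (hQ : Q ≠ 0) (hQw : aevalAeval w x Q = 0) : ρ ≤ ‖s - w‖ := by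
  let alg : Algebra M L := (Subfield.inclusion hle).toAlgebra
  have tow : IsScalarTower M L Ω := IsScalarTower.of_algebraMap_eq fun z => rfl
  exact symm_dist (M := M) (L := L) (Ω := Ω) ⟨s, hsL⟩ x hr hρ (fun y => hx y y.2)
    (fun r' hr' => by
      obtain ⟨y, hy, h⟩ := hxM r' hr'
      exact ⟨⟨y, hy⟩, h⟩)
    (fun y => hs y y.2)
    (fun r' hr' => by
      obtain ⟨y, hy, h⟩ := hsM r' hr'
      exact ⟨⟨y, hy⟩, h⟩)
    w Q hQ hQw

/-- Symmetry. -/
theorem D_symm {B : Set Ω} {s x : Ω} (hx : 0 < D k x B) (hxs : D k x (insert s B) = D k x B)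
    (hs : 0 < D k s B) : D k s (insert x B) = D k s B := by
  refine le_antisymm (D_anti k (Set.subset_insert _ _)) ?_
  refine le_D k fun w hw => ?_
  obtain ⟨Q, hQ, hQw⟩ := exists_poly k hw
  have hle : AC k B ≤ AC k (insert s B) := fun z hz =>
    (mem_AC k).2 (cls_mono k (Set.subset_insert _ _) ((mem_AC k).1 hz))
  refine symm_subfield (AC k B) (AC k (insert s B)) hle
    ((mem_AC k).2 (subset_cls k _ (Set.mem_insert _ _))) hx hs ?_ ?_ ?_ ?_ Q hQ hQw
  · intro y hy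
    rw [← hxs]
    exact D_le k ((mem_AC k).1 hy)
  · intro r' hr'
    obtain ⟨y, hy, h⟩ := exists_lt k hr'
    exact ⟨y, (mem_AC k).2 hy, h⟩
  · intro y hy
    exact D_le k ((mem_AC k).1 hy)
  · intro r' hr'
    obtain ⟨y, hy, h⟩ := exists_lt k hr'
    exact ⟨y, (mem_AC k).2 hy, h⟩

/-- `S` is free over `B`. -/
def Free (B S : Set Ω) : Prop := ∀ s ∈ S, 0 < D k s B ∧ D k s (B ∪ (S \ {s})) = D k s B

theorem Free.insert {B S : Set Ω} (hS : Free k B S) {x : Ω} (hx : 0 < D k x B)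
    (hxS : D k x (B ∪ S) = D k x B) : Free k B (insert x S) := by
  have hxnot : x ∉ S := by
    intro h
    have h1 : 0 < D k x (B ∪ S) := hxS ▸ hx
    rw [D_pos_iff] at h1
    exact h1 (subset_closure (subset_cls k _ (Or.inr h)))
  intro s hs
  rcases hs with rfl | hs
  · refine ⟨hx, ?_⟩
    have : Insert.insert s S \ {s} = S := by
      ext z
      constructor
      · rintro ⟨rfl | h1, h2⟩
        · exact absurd rfl h2
        · exact h1
      · intro h
        exact ⟨Or.inr h, fun h' => hxnot (by rw [Set.mem_singleton_iff] at h'; rwa [h'] at h)⟩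
    rw [this]
    exact hxS
  · obtain ⟨h1, h2⟩ := hS s hs
    refine ⟨h1, ?_⟩
    have hsx : s ≠ x := fun h => hxnot (h ▸ hs)
    have e1 : B ∪ (Insert.insert x S \ {s}) = Insert.insert x (B ∪ (S \ {s})) := by
      ext z
      simp only [Set.mem_union, Set.mem_sdiff, Set.mem_insert_iff, Set.mem_singleton_iff]
      constructor
      · rintro (h | ⟨h | h, h'⟩)
        · exact Or.inr (Or.inl h)
        · exact Or.inl h
        · exact Or.inr (Or.inr ⟨h, h'⟩)
      · rintro (h | h | ⟨h, h'⟩)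
        · exact Or.inr ⟨Or.inl h, by rw [h]; exact hsx.symm⟩
        · exact Or.inl h
        · exact Or.inr ⟨Or.inr h, h'⟩
    have e2 : Insert.insert s (B ∪ (S \ {s})) = B ∪ S := by
      ext z
      simp only [Set.mem_union, Set.mem_sdiff, Set.mem_insert_iff, Set.mem_singleton_iff]
      constructor
      · rintro (h | h | ⟨h, h'⟩)
        · exact Or.inr (h ▸ hs)
        · exact Or.inl h
        · exact Or.inr h
      · rintro (h | h)
        · exact Or.inr (Or.inl h)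
        · by_cases hz : z = s
          · exact Or.inl hz
          · exact Or.inr (Or.inr ⟨h, hz⟩)
    have hD : D k x (B ∪ (S \ {s})) = D k x B := by
      refine le_antisymm (D_anti k Set.subset_union_left) ?_
      rw [← hxS]
      exact D_anti k (Set.union_subset_union_right _ Set.sdiff_subset)
    rw [e1, D_symm k (hD ▸ hx) (by rw [e2, hxS, hD]) (h2 ▸ h1), h2]

/-- Freeness has finite character, so maximal free subsets exist. -/
theorem exists_maximal_free (B T : Set Ω) : ∃ S, Maximal (fun S => S ⊆ T ∧ Free k B S) S := by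
  refine zorn_subset {S | S ⊆ T ∧ Free k B S} ?_
  intro c hc hchain
  refine ⟨⋃₀ c, ⟨Set.sUnion_subset fun S hS => (hc hS).1, ?_⟩, fun S hS =>
    Set.subset_sUnion_of_mem hS⟩
  rintro s ⟨S₀, hS₀, hs⟩
  refine ⟨((hc hS₀).2 s hs).1, ?_⟩
  refine le_antisymm (D_anti k Set.subset_union_left) ?_
  refine le_D k fun y hy => ?_
  obtain ⟨F, hF, hFfin, hyF⟩ := exists_finite k hy
  -- a member of the chain containing `s` and the finite set
  have key : ∀ F : Set Ω, F.Finite → F ⊆ B ∪ (⋃₀ c \ {s}) →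
      ∃ S₁ ∈ c, s ∈ S₁ ∧ F ⊆ B ∪ (S₁ \ {s}) := by
    intro F hF
    induction F, hF using Set.Finite.induction_on with
    | empty => intro _; exact ⟨S₀, hS₀, hs, Set.empty_subset _⟩
    | @insert a F _ _ ih =>
      intro h
      obtain ⟨S₁, hS₁, hs₁, hF₁⟩ := ih ((Set.subset_insert _ _).trans h)
      rcases h (Set.mem_insert _ _) with ha | ⟨⟨S₂, hS₂, ha⟩, has⟩
      · exact ⟨S₁, hS₁, hs₁, Set.insert_subset (Or.inl ha) hF₁⟩
      · rcases hchain.total hS₁ hS₂ with h12 | h21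
        · refine ⟨S₂, hS₂, h12 hs₁, Set.insert_subset (Or.inr ⟨ha, has⟩) (hF₁.trans ?_)⟩
          exact Set.union_subset_union_right _ (Set.sdiff_subset_sdiff_left h12)
        · exact ⟨S₁, hS₁, hs₁, Set.insert_subset (Or.inr ⟨h21 ha, has⟩) hF₁⟩
  obtain ⟨S₁, hS₁, hs₁, hFS⟩ := key F hFfin hF
  rw [← ((hc hS₁).2 s hs₁).2]
  exact D_le k (cls_mono k hFS hyF)

end Pool.Agent.Q62.TTD
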