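import Mathlib

/-!
# Gauss norm estimates at points far from an algebraically closed subfield
-/

set_option autoImplicit false

open Polynomial

namespace Pool.Agent.Q62.TTD

theorem nsub {Ω : Type*} [NormedField Ω] [IsUltrametricDist Ω] (x y : Ω) :
    ‖x - y‖ ≤ max ‖x‖ ‖y‖ := by
  rw [sub_eq_add_neg, ← norm_neg y]
  exact IsUltrametricDist.norm_add_le_max x (-y)

/-- One variable: if `x` has distance at least `r` from the algebraically closed field `F`, then
the value of a polynomial at `x` is almost its Gauss norm on the disc of radius `‖x - a‖`. -/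
theorem coeff_taylor_le {F Ω : Type*} [Field F] [IsAlgClosed F] [NormedField Ω]
    [IsUltrametricDist Ω] [Algebra F Ω] {x : Ω} {r : ℝ} (hr : 0 < r)
    (hx : ∀ y : F, r ≤ ‖x - algebraMap F Ω y‖) (a : F) (n : ℕ) :
    ∀ (Q : F[X]), Q.natDegree = n → ∀ k : ℕ,
      ‖algebraMap F Ω ((taylor a Q).coeff k)‖ * ‖x - algebraMap F Ω a‖ ^ k ≤
        (‖x - algebraMap F Ω a‖ / r) ^ n * ‖aeval x Q‖ := by
  set R := ‖x - algebraMap F Ω a‖ with hR
  have hRr : r ≤ R := hx a
  have hR0 : 0 < R := lt_of_lt_of_le hr hRr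
  have hq : 1 ≤ R / r := (one_le_div hr).2 hRr
  induction n with
  | zero =>
    intro Q hQ k
    obtain ⟨c, rfl⟩ := natDegree_eq_zero.1 hQ
    rcases k with _ | k
    · simp
    · simp
  | succ n ih =>
    intro Q hQ k
    have hdeg : Q.degree ≠ 0 := by
      intro h
      have h' : Q.natDegree = 0 := natDegree_eq_of_degree_eq_some h
      omega
    obtain ⟨α, hα⟩ := IsAlgClosed.exists_root Q hdeg
    obtain ⟨Q', rfl⟩ := dvd_iff_isRoot.2 hα
    have hQ0 : Q' ≠ 0 := by
      rintro rfl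
      simp at hQ
    have hQ' : Q'.natDegree = n := by
      rw [natDegree_mul (X_sub_C_ne_zero α) hQ0, natDegree_X_sub_C] at hQ
      omega
    have ih' := ih Q' hQ'
    have hval : aeval x ((X - C α) * Q') = (x - algebraMap F Ω α) * aeval x Q' := by
      simp
    rw [hval, norm_mul]
    set D := ‖x - algebraMap F Ω α‖ with hD
    have hrD : r ≤ D := hx α
    have h1 : R ≤ R / r * D := by
      rw [div_mul_eq_mul_div, le_div_iff₀ hr]
      exact mul_le_mul_of_nonneg_left hrD hR0.le
    have h2 : ‖algebraMap F Ω (a - α)‖ ≤ R / r * D := by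
      have : algebraMap F Ω (a - α) = (x - algebraMap F Ω α) - (x - algebraMap F Ω a) := by
        simp
      rw [this]
      refine (nsub _ _).trans (max_le ?_ h1)
      calc ‖x - algebraMap F Ω α‖ = 1 * D := by rw [one_mul]
        _ ≤ R / r * D := mul_le_mul_of_nonneg_right hq (norm_nonneg _)
    have hB : 0 ≤ (R / r) ^ n * ‖aeval x Q'‖ := by positivity
    have htay : taylor a ((X - C α) * Q') = X * taylor a Q' + C (a - α) * taylor a Q' := by
      rw [taylor_mul, map_sub, taylor_X, taylor_C, map_sub]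
      ring
    have key : (R / r) ^ (n + 1) * (D * ‖aeval x Q'‖) =
        (R / r * D) * ((R / r) ^ n * ‖aeval x Q'‖) := by ring
    rw [htay, coeff_add, coeff_C_mul, map_add, map_mul, key]
    have hsecond : ∀ k, ‖algebraMap F Ω (a - α) * algebraMap F Ω ((taylor a Q').coeff k)‖ * R ^ k ≤
        (R / r * D) * ((R / r) ^ n * ‖aeval x Q'‖) := by
      intro k
      rw [norm_mul, mul_assoc]
      exact mul_le_mul h2 (ih' k) (by positivity) (by positivity)
    rcases k with _ | k
    · simpa using hsecond 0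
    · rw [coeff_X_mul]
      have hfirst : ‖algebraMap F Ω ((taylor a Q').coeff k)‖ * R ^ (k + 1) ≤
          (R / r * D) * ((R / r) ^ n * ‖aeval x Q'‖) := by
        rw [pow_succ, ← mul_assoc, mul_comm]
        exact mul_le_mul h1 (ih' k) (by positivity) (by positivity)
      have hmax := IsUltrametricDist.norm_add_le_max (algebraMap F Ω ((taylor a Q').coeff k))
        (algebraMap F Ω (a - α) * algebraMap F Ω ((taylor a Q').coeff (k + 1)))
      rcases le_max_iff.1 hmax with h | h
      · exact (mul_le_mul_of_nonneg_right h (by positivity)).trans hfirst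
      · exact (mul_le_mul_of_nonneg_right h (by positivity)).trans (hsecond (k + 1))


theorem norm_pow_sub_pow_le {Ω : Type*} [NormedField Ω] [IsUltrametricDist Ω] {u v : Ω} {R : ℝ}
    (hu : ‖u‖ ≤ R) (hv : ‖v‖ ≤ R) (j : ℕ) : ‖u ^ (j + 1) - v ^ (j + 1)‖ ≤ ‖u - v‖ * R ^ j := by
  have hR : 0 ≤ R := (norm_nonneg _).trans hu
  induction j with
  | zero => simp
  | succ j ih =>
    have : u ^ (j + 1 + 1) - v ^ (j + 1 + 1) = u * (u ^ (j + 1) - v ^ (j + 1)) +
        (u - v) * v ^ (j + 1) := by ring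
    rw [this]
    refine (IsUltrametricDist.norm_add_le_max _ _).trans (max_le ?_ ?_)
    · rw [norm_mul]
      calc ‖u‖ * ‖u ^ (j + 1) - v ^ (j + 1)‖ ≤ R * (‖u - v‖ * R ^ j) :=
            mul_le_mul hu ih (norm_nonneg _) hR
        _ = ‖u - v‖ * R ^ (j + 1) := by ring
    · rw [norm_mul, norm_pow]
      exact mul_le_mul_of_nonneg_left (pow_le_pow_left₀ (norm_nonneg _) hv _) (norm_nonneg _)

theorem eval_eq_sum_taylor {Ω : Type*} [Field Ω] (g : Polynomial Ω) (b s : Ω) :
    g.eval s = ∑ j ∈ Finset.range (g.natDegree + 1), (taylor b g).coeff j * (s - b) ^ j := by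
  have h : (taylor b g).eval (s - b) = g.eval s := by rw [taylor_eval]; simp
  rw [← h, eval_eq_sum_range, natDegree_taylor]

theorem norm_eval_sub_eval_le {Ω : Type*} [NormedField Ω] [IsUltrametricDist Ω] (g : Polynomial Ω)
    {b s w : Ω} {R N : ℝ} (hR : 0 < R) (hs : ‖s - b‖ ≤ R) (hw : ‖w - b‖ ≤ R)
    (hN : ∀ j, ‖(taylor b g).coeff j‖ * R ^ j ≤ N) :
    ‖g.eval s - g.eval w‖ * R ≤ N * ‖s - w‖ := by
  have hN0 : 0 ≤ N := (by positivity : (0:ℝ) ≤ ‖(taylor b g).coeff 0‖ * R ^ 0).trans (hN 0)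
  rw [eval_eq_sum_taylor g b s, eval_eq_sum_taylor g b w, ← Finset.sum_sub_distrib,
    ← le_div_iff₀ hR]
  refine IsUltrametricDist.norm_sum_le_of_forall_le_of_nonneg (by positivity) ?_
  intro j _
  rw [← mul_sub, norm_mul, le_div_iff₀ hR]
  rcases j with _ | j
  · simp only [pow_zero, sub_self, norm_zero, mul_zero, zero_mul]
    positivity
  · have h1 := norm_pow_sub_pow_le hs hw j
    have h2 : s - b - (w - b) = s - w := by ring
    rw [h2] at h1
    calc ‖(taylor b g).coeff (j + 1)‖ * ‖(s - b) ^ (j + 1) - (w - b) ^ (j + 1)‖ * R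
        ≤ ‖(taylor b g).coeff (j + 1)‖ * (‖s - w‖ * R ^ j) * R := by gcongr
      _ = (‖(taylor b g).coeff (j + 1)‖ * R ^ (j + 1)) * ‖s - w‖ := by ring
      _ ≤ N * ‖s - w‖ := mul_le_mul_of_nonneg_right (hN _) (norm_nonneg _)

theorem natDegree_coeff_taylor_le {M : Type*} [Field M] (f : Polynomial (Polynomial M)) (m : ℕ)
    (hf : ∀ i, (f.coeff i).natDegree ≤ m) (a : M) (k : ℕ) :
    ((taylor (C a) f).coeff k).natDegree ≤ m := by
  rw [taylor_coeff, eval_eq_sum_range]
  refine natDegree_sum_le_of_forall_le _ _ ?_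
  intro i _
  rw [hasseDeriv_coeff, ← C_pow]
  refine (natDegree_mul_C_le _ _).trans ?_
  refine natDegree_mul_le.trans ?_
  rw [natDegree_natCast, zero_add]
  exact hf _

end Pool.Agent.Q62.TTD
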