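import Pool.Agent.Q62.TTD.Chain

/-!
# Topological transcendence degree and topological generating degree
-/

set_option autoImplicit false

universe u v

open Cardinal Polynomial

namespace Pool.Agent.Q62.TTD

section defs

variable (k : Type*) {Ω : Type*} [Field k] [NormedField Ω] [Algebra k Ω]

/-- The closure in `Ω` of the set of elements of `Ω` algebraic over `k(S)`; for `Ω` the completion
of an algebraic closure of `K` this is the field `\widehat{k(S)^a}`. -/
def taClosure (S : Set Ω) : Set Ω :=
  closure {y : Ω | IsAlgebraic (IntermediateField.adjoin k S) y}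

/-- `S` is topologically-algebraically independent over `k`. -/
def TAIndependent (S : Set Ω) : Prop := ∀ S' : Set Ω, S' ⊂ S → taClosure k S' ⊂ taClosure k S

/-- `S` is topologically-algebraically generating over `k`. -/
def TAGenerating (S : Set Ω) : Prop := taClosure k S = Set.univ

end defs

/-- The topological transcendence degree of `K/k`: the supremum of the cardinalities of the
t.a. independent subsets of `K`. Here `Ω = \widehat{K^a}`. -/
noncomputable def topdeg (k : Type v) (K Ω : Type u) [Field k] [Field K] [NormedField Ω]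
    [Algebra k Ω] [Algebra K Ω] : Cardinal.{u} :=
  ⨆ S : {S : Set K // TAIndependent k (algebraMap K Ω '' S)}, #S.1

/-- The topological generating degree of `K/k`: the minimum of the cardinalities of the
t.a. generating subsets of `K`. Here `Ω = \widehat{K^a}`. -/
noncomputable def Topdeg (k : Type v) (K Ω : Type u) [Field k] [Field K] [NormedField Ω]
    [Algebra k Ω] [Algebra K Ω] : Cardinal.{u} :=
  sInf {c | ∃ S : Set K, TAGenerating k (algebraMap K Ω '' S) ∧ c = #S}

theorem cls_image (k : Type*) {E F : Type*} [Field k] [Field E] [IsAlgClosed E] [Field F]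
    [Algebra k E] [Algebra k F] [Algebra E F] [IsScalarTower k E F] (S : Set E) :
    cls k (algebraMap E F '' S) = algebraMap E F '' cls k S := by
  have hiff : ∀ e : E, algebraMap E F e ∈ cls k (algebraMap E F '' S) ↔ e ∈ cls k S := by
    intro e
    rw [mem_cls, mem_cls]
    have h1 : Algebra.adjoin k (algebraMap E F '' S) =
        (Algebra.adjoin k S).map (IsScalarTower.toAlgHom k E F) := by
      rw [AlgHom.map_adjoin]
      rfl
    rw [h1]
    have hinj : Function.Injective (IsScalarTower.toAlgHom k E F) :=
      (algebraMap E F).injective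
    exact isAlgebraic_ringHom_iff_of_comp_eq
      ((Algebra.adjoin k S).equivMapOfInjective _ hinj) (algebraMap E F)
      (algebraMap E F).injective (by ext z; rfl)
  ext y
  constructor
  · intro hy
    -- `y` is algebraic over `E`
    have hyE : IsAlgebraic E y := by
      rw [mem_cls] at hy
      obtain ⟨p, hp, hpy⟩ := hy
      have hle : ∀ z ∈ Algebra.adjoin k (algebraMap E F '' S), z ∈ (algebraMap E F).range := by
        intro z hz
        induction hz using Algebra.adjoin_induction with
        | mem z hz =>
          obtain ⟨e, -, rfl⟩ := hz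
          exact ⟨e, rfl⟩
        | algebraMap r => exact ⟨algebraMap k E r, (IsScalarTower.algebraMap_apply k E F r).symm⟩
        | add z w _ _ hz hw => exact add_mem hz hw
        | mul z w _ _ hz hw => exact mul_mem hz hw
      choose! g hg using hle
      have hginj : ∀ z ∈ Algebra.adjoin k (algebraMap E F '' S), g z = 0 → z = 0 := by
        intro z hz h0
        rw [← hg z hz, h0, map_zero]
      refine ⟨∑ i ∈ Finset.range (p.natDegree + 1), C (g (p.coeff i : F)) * X ^ i, ?_, ?_⟩
      · intro h0
        have h1 := congrArg (fun q => Polynomial.coeff q p.natDegree) h0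
        simp only [finsetSum_coeff, coeff_C_mul_X_pow, coeff_zero] at h1
        rw [Finset.sum_ite_eq, if_pos (by simp)] at h1
        apply hp
        rw [← leadingCoeff_eq_zero]
        exact Subtype.ext (hginj _ (p.coeff _).2 h1)
      · rw [aeval_eq_sum_range] at hpy
        rw [← hpy, map_sum]
        refine Finset.sum_congr rfl fun i _ => ?_
        rw [map_mul, aeval_C, map_pow, aeval_X, hg _ (p.coeff i).2, Algebra.smul_def]
        rfl
    obtain ⟨e, rfl⟩ := minpoly.mem_range_of_degree_eq_one E y
      (IsAlgClosed.degree_eq_one_of_irreducible E (minpoly.irreducible hyE.isIntegral))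
    exact ⟨e, (hiff e).1 hy, rfl⟩
  · rintro ⟨e, he, rfl⟩
    exact (hiff e).2 he

section dense

variable (k : Type v) {K Ka : Type u} [Field k] [NormedField K] [NormedField Ka]
  [IsUltrametricDist Ka] [Algebra k Ka] [NormedAlgebra K Ka] [IsAlgClosed Ka]
  [Algebra.IsAlgebraic K Ka]

/-- If `K` is contained in the closure of an algebraically closed field, then so is every algebraic
extension of `K`. -/
theorem mem_closure_of_forall {B : Set Ka} (hB : ∀ x : K, algebraMap K Ka x ∈ closure (cls k B))
    (y : Ka) : y ∈ closure (cls k B) := by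
  by_contra hy
  rw [← D_pos_iff] at hy
  set d := D k y B with hd
  have hint : IsIntegral K y := (Algebra.IsAlgebraic.isAlgebraic y).isIntegral
  set g := minpoly K y with hg
  have hmon : g.Monic := minpoly.monic hint
  set n := g.natDegree with hn
  set M := max 1 ‖y‖ with hM
  have hM1 : 1 ≤ M := le_max_left _ _
  have hM0 : 0 < M := by linarith
  obtain ⟨δ, hδ0, hδ⟩ : ∃ δ : ℝ, 0 < δ ∧ δ * M ^ n < d ^ n := by
    refine ⟨d ^ n / M ^ n / 2, by positivity, ?_⟩
    have : d ^ n / M ^ n / 2 * M ^ n = d ^ n / 2 := by field_simp
    rw [this]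
    have : 0 < d ^ n := by positivity
    linarith
  have hex : ∀ i : ℕ, ∃ c : AC k B, ‖algebraMap K Ka (g.coeff i) - (c : Ka)‖ < δ := by
    intro i
    obtain ⟨c, hc, h⟩ := Metric.mem_closure_iff.1 (hB (g.coeff i)) δ hδ0
    exact ⟨⟨c, (mem_AC k).2 hc⟩, by rwa [← dist_eq_norm]⟩
  choose c hc using hex
  set f : Polynomial (AC k B) := X ^ n + ∑ i ∈ Finset.range n, C (c i) * X ^ i with hf
  have hfdeg : (∑ i ∈ Finset.range n, C (c i) * X ^ i : Polynomial (AC k B)).degree < n := by
    rw [degree_lt_iff_coeff_zero]
    intro m hm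
    rw [finsetSum_coeff]
    refine Finset.sum_eq_zero fun i hi => ?_
    rw [coeff_C_mul_X_pow, if_neg]
    have := Finset.mem_range.1 hi
    omega
  have hfmon : f.Monic := monic_X_pow_add hfdeg
  have hfnat : f.natDegree = n := by
    have h1 : f.degree = n := by
      rw [hf, degree_add_eq_left_of_degree_lt (by rw [degree_X_pow]; exact hfdeg), degree_X_pow]
    exact natDegree_eq_of_degree_eq_some h1
  -- lower bound
  have hlow : d ^ n ≤ ‖aeval y f‖ := by
    have h1 := coeff_taylor_le (F := AC k B) (Ω := Ka) (x := y) (r := d) hy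
      (fun z => D_le k ((mem_AC k).1 z.2)) 0 n f hfnat n
    have h2 : (taylor (0 : AC k B) f).coeff n = 1 := by
      rw [taylor_zero, ← hfnat]
      exact hfmon.coeff_natDegree
    rw [h2, map_one, norm_one, one_mul, div_pow] at h1
    have h3 : 0 < ‖y - algebraMap (AC k B) Ka 0‖ :=
      hy.trans_le (D_le k ((mem_AC k).1 (0 : AC k B).2))
    have h4 : 0 < ‖y - algebraMap (AC k B) Ka 0‖ ^ n := by positivity
    have h5 : 0 < d ^ n := by positivity
    have h6 : ‖y - algebraMap (AC k B) Ka 0‖ ^ n * d ^ n ≤
        ‖y - algebraMap (AC k B) Ka 0‖ ^ n * ‖aeval y f‖ := by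
      rw [div_mul_eq_mul_div, le_div_iff₀ h5] at h1
      exact h1
    exact le_of_mul_le_mul_left h6 h4
  -- upper bound
  have hup : ‖aeval y f‖ ≤ δ * M ^ n := by
    have h1 : aeval y f = - ∑ i ∈ Finset.range n,
        (algebraMap K Ka (g.coeff i) - (c i : Ka)) * y ^ i := by
      have h2 : aeval y g = 0 := minpoly.aeval K y
      rw [aeval_eq_sum_range, ← hn, Finset.sum_range_succ, hmon.coeff_natDegree, one_smul] at h2
      have h3 : aeval y f = y ^ n + ∑ i ∈ Finset.range n, (c i : Ka) * y ^ i := by
        rw [hf, map_add, map_pow, aeval_X, map_sum]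
        congr 1
        refine Finset.sum_congr rfl fun i _ => ?_
        rw [map_mul, aeval_C, map_pow, aeval_X]
        rfl
      rw [h3]
      simp only [sub_mul, Finset.sum_sub_distrib]
      have h4 : y ^ n = - ∑ i ∈ Finset.range n, g.coeff i • y ^ i := by
        linear_combination h2
      rw [h4]
      simp only [Algebra.smul_def]
      ring
    rw [h1, norm_neg]
    refine IsUltrametricDist.norm_sum_le_of_forall_le_of_nonneg (by positivity) ?_
    intro i hi
    rw [norm_mul, norm_pow]
    refine mul_le_mul (hc i).le ?_ (by positivity) hδ0.le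
    calc ‖y‖ ^ i ≤ M ^ i := pow_le_pow_left₀ (norm_nonneg _) (le_max_right _ _) _
      _ ≤ M ^ n := pow_le_pow_right₀ hM1 (Finset.mem_range.1 hi).le
  linarith

end dense

end Pool.Agent.Q62.TTD
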