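import Pool.Agent.Q62.TTD.Gauss

/-!
# Symmetry of the free position relation
-/

set_option autoImplicit false

open Polynomial

namespace Pool.Agent.Q62.TTD

theorem eval_map_aeval {M Ω : Type*} [Field M] [Field Ω] [Algebra M Ω] (w x : Ω)
    (Q : Polynomial (Polynomial M)) :
    (Q.map (aeval w : Polynomial M →ₐ[M] Ω).toRingHom).eval x = aevalAeval w x Q := by
  have h : (evalRingHom x).comp (mapRingHom (aeval w : Polynomial M →ₐ[M] Ω).toRingHom) =
      (aevalAeval w x : _ →ₐ[M] Ω).toRingHom := by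
    refine Polynomial.ringHom_ext' ?_ ?_
    · refine RingHom.ext fun p => ?_
      simp
    · simp
  exact RingHom.congr_fun h Q

theorem aeval_map_aeval {M L Ω : Type*} [Field M] [Field L] [Field Ω] [Algebra M L] [Algebra L Ω]
    [Algebra M Ω] [IsScalarTower M L Ω] (s : L) (x : Ω) (Q : Polynomial (Polynomial M)) :
    aeval x (Q.map (aeval s : Polynomial M →ₐ[M] L).toRingHom) =
      aevalAeval (algebraMap L Ω s) x Q := by
  rw [← eval_map_aeval, aeval_def, eval₂_eq_eval_map, map_map]
  congr 2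
  refine RingHom.ext fun p => ?_
  simp [aeval_algebraMap_apply]

theorem coeff_taylor_map {A B : Type*} [CommRing A] [CommRing B] (f : A →+* B) (Q : Polynomial A)
    (a : A) (k : ℕ) : (taylor (f a) (Q.map f)).coeff k = f ((taylor a Q).coeff k) := by
  rw [← map_taylor, coeff_map]

/-- If `s ∈ L`, `x` is as far from `L` as from `M`, then every element algebraic over `M(x)` is as
far from `s` as `M` is. Here `M ⊆ L` are algebraically closed fields. -/
theorem symm_dist {M L Ω : Type*} [Field M] [IsAlgClosed M] [Field L] [IsAlgClosed L]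
    [NormedField Ω] [IsUltrametricDist Ω] [Algebra M L] [Algebra L Ω] [Algebra M Ω]
    [IsScalarTower M L Ω] (s : L) (x : Ω) {r ρ : ℝ} (hr : 0 < r) (hρ : 0 < ρ)
    (hx : ∀ y : L, r ≤ ‖x - algebraMap L Ω y‖)
    (hxM : ∀ r' > r, ∃ a : M, ‖x - algebraMap M Ω a‖ < r')
    (hs : ∀ y : M, ρ ≤ ‖algebraMap L Ω s - algebraMap M Ω y‖)
    (hsM : ∀ ρ' > ρ, ∃ b : M, ‖algebraMap L Ω s - algebraMap M Ω b‖ < ρ')
    (w : Ω) (Q : Polynomial (Polynomial M)) (hQ : Q ≠ 0) (hQw : aevalAeval w x Q = 0) :
    ρ ≤ ‖algebraMap L Ω s - w‖ := by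
  by_contra hcon
  rw [not_le] at hcon
  set s' : Ω := algebraMap L Ω s with hs'
  -- degree bounds
  obtain ⟨m, hm⟩ : ∃ m, ∀ i, (Q.coeff i).natDegree ≤ m := by
    refine ⟨(Finset.range (Q.natDegree + 1)).sup fun i => (Q.coeff i).natDegree, fun i => ?_⟩
    by_cases hi : i ∈ Finset.range (Q.natDegree + 1)
    · exact Finset.le_sup (f := fun i => (Q.coeff i).natDegree) hi
    · rw [coeff_eq_zero_of_natDegree_lt (by simpa using hi)]
      simp
  set n := Q.natDegree with hn
  -- choose `θ`
  obtain ⟨θ, hθ1, hθ⟩ : ∃ θ : ℝ, 1 < θ ∧ θ ^ (n + m) * ‖s' - w‖ < ρ := by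
    have hcont : Filter.Tendsto (fun θ : ℝ => θ ^ (n + m) * ‖s' - w‖) (nhdsWithin 1 (Set.Ioi 1))
        (nhds (1 ^ (n + m) * ‖s' - w‖)) := by
      apply tendsto_nhdsWithin_of_tendsto_nhds
      exact ((continuous_id.pow _).mul continuous_const).tendsto 1
    rw [one_pow, one_mul] at hcont
    have h1 := hcont.eventually (gt_mem_nhds hcon)
    have h2 : ∀ᶠ θ : ℝ in nhdsWithin 1 (Set.Ioi 1), 1 < θ := self_mem_nhdsWithin
    obtain ⟨θ, h3, h4⟩ := (h1.and h2).exists
    exact ⟨θ, h4, h3⟩
  have hθ0 : 0 < θ := by linarith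
  obtain ⟨a, ha⟩ := hxM (θ * r) (by nlinarith)
  obtain ⟨b, hb⟩ := hsM (θ * ρ) (by nlinarith)
  set R := ‖x - algebraMap M Ω a‖ with hR
  set R' := ‖s' - algebraMap M Ω b‖ with hR'
  have hrR : r ≤ R := by
    have := hx (algebraMap M L a)
    rwa [← IsScalarTower.algebraMap_apply] at this
  have hρR' : ρ ≤ R' := hs b
  have hR0 : 0 < R := hr.trans_le hrR
  have hR'0 : 0 < R' := hρ.trans_le hρR'
  have hq : 1 ≤ R / r := (one_le_div hr).2 hrR
  have hq' : 1 ≤ R' / ρ := (one_le_div hρ).2 hρR'
  have hwb : ‖w - algebraMap M Ω b‖ ≤ R' := by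
    have : w - algebraMap M Ω b = (s' - algebraMap M Ω b) - (s' - w) := by ring
    rw [this]
    exact (nsub _ _).trans (max_le le_rfl (hcon.le.trans hρR'))
  -- the coefficients of the outer Taylor expansion
  set q : ℕ → Polynomial M := fun k => (taylor (C a) Q).coeff k with hq_def
  have hqdeg : ∀ k, (q k).natDegree ≤ m := fun k => natDegree_coeff_taylor_le Q m hm a k
  set V := ‖aevalAeval s' x Q‖ with hV
  -- outer estimate
  have hout : ∀ k, ‖aeval s' (q k)‖ * R ^ k ≤ (R / r) ^ n * V := by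
    intro k
    set Qs : Polynomial L := Q.map (aeval s : Polynomial M →ₐ[M] L).toRingHom with hQs
    have h := coeff_taylor_le hr hx (algebraMap M L a) Qs.natDegree Qs rfl k
    rw [← IsScalarTower.algebraMap_apply, aeval_map_aeval] at h
    have h2 : algebraMap L Ω ((taylor (algebraMap M L a) Qs).coeff k) = aeval s' (q k) := by
      have h3 := coeff_taylor_map (aeval s : Polynomial M →ₐ[M] L).toRingHom Q (C a) k
      have h4 : (aeval s : Polynomial M →ₐ[M] L).toRingHom (C a) = algebraMap M L a := by simp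
      rw [h4] at h3
      rw [hQs, h3, hs', aeval_algebraMap_apply]
      rfl
    rw [h2] at h
    refine h.trans ?_
    refine mul_le_mul_of_nonneg_right ?_ (norm_nonneg _)
    exact pow_le_pow_right₀ hq natDegree_map_le
  -- inner estimate
  have hin : ∀ k j, ‖algebraMap M Ω ((taylor b (q k)).coeff j)‖ * R' ^ j ≤
      (R' / ρ) ^ m * ‖aeval s' (q k)‖ := by
    intro k j
    refine (coeff_taylor_le hρ hs b (q k).natDegree (q k) rfl j).trans ?_
    refine mul_le_mul_of_nonneg_right ?_ (norm_nonneg _)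
    exact pow_le_pow_right₀ hq' (hqdeg k)
  set A := (R' / ρ) ^ m * (R / r) ^ n with hA
  have hA0 : 0 < A := by positivity
  -- `V` is positive
  have hV0 : 0 < V := by
    by_contra hV0
    have hV0' : V = 0 := le_antisymm (not_lt.1 hV0) (norm_nonneg _)
    apply hQ
    have hz : ∀ k, q k = 0 := by
      intro k
      have h1 := hout k
      rw [hV0', mul_zero] at h1
      have h2 : ‖aeval s' (q k)‖ ≤ 0 := by
        by_contra h2
        rw [not_le] at h2
        have : 0 < ‖aeval s' (q k)‖ * R ^ k := by positivity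
        linarith
      have h3 : taylor b (q k) = 0 := by
        ext j
        have h4 := hin k j
        have h5 : (R' / ρ) ^ m * ‖aeval s' (q k)‖ ≤ 0 :=
          mul_nonpos_of_nonneg_of_nonpos (by positivity) h2
        have h6 : ‖algebraMap M Ω ((taylor b (q k)).coeff j)‖ = 0 := by
          refine le_antisymm ?_ (norm_nonneg _)
          by_contra h7
          rw [not_le] at h7
          have : 0 < ‖algebraMap M Ω ((taylor b (q k)).coeff j)‖ * R' ^ j := by positivity
          linarith
        rw [norm_eq_zero, map_eq_zero] at h6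
        simpa using h6
      exact (taylor_injective b) (by simpa using h3)
    have h8 : taylor (C a) Q = 0 := by
      ext1 k
      simpa using hz k
    exact (taylor_injective (C a)) (by simpa using h8)
  -- comparison of the values at `s` and `w`
  have hdiff : ∀ k, ‖aeval s' (q k) - aeval w (q k)‖ * R' ≤
      (R' / ρ) ^ m * ‖aeval s' (q k)‖ * ‖s' - w‖ := by
    intro k
    have h := norm_eval_sub_eval_le ((q k).map (algebraMap M Ω)) (b := algebraMap M Ω b)
      (s := s') (w := w) (N := (R' / ρ) ^ m * ‖aeval s' (q k)‖) hR'0 le_rfl hwb (by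
        intro j
        rw [coeff_taylor_map]
        exact hin k j)
    simpa [eval_map_algebraMap] using h
  have hsum : ∀ v : Ω, aevalAeval v x Q = ∑ k ∈ Finset.range (n + 1),
      aeval v (q k) * (x - algebraMap M Ω a) ^ k := by
    intro v
    have h1 : aevalAeval v x Q = aevalAeval v (x - algebraMap M Ω a) (taylor (C a) Q) := by
      rw [← eval_map_aeval, ← eval_map_aeval]
      have h2 : (taylor (C a) Q).map (aeval v : Polynomial M →ₐ[M] Ω).toRingHom =
          taylor (algebraMap M Ω a) (Q.map (aeval v : Polynomial M →ₐ[M] Ω).toRingHom) := by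
        ext k
        have h3 := coeff_taylor_map (aeval v : Polynomial M →ₐ[M] Ω).toRingHom Q (C a) k
        have h4 : (aeval v : Polynomial M →ₐ[M] Ω).toRingHom (C a) = algebraMap M Ω a := by simp
        rw [h4] at h3
        rw [h3, coeff_map]
      rw [h2, taylor_eval]
      simp
    rw [h1, ← eval_map_aeval, eval_eq_sum_range' (n := n + 1)]
    · refine Finset.sum_congr rfl fun k _ => ?_
      rw [coeff_map]
      rfl
    · refine Nat.lt_succ_of_le (natDegree_map_le.trans ?_)
      rw [natDegree_taylor]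
  have hfin : V * R' ≤ A * V * ‖s' - w‖ := by
    have h1 : aevalAeval s' x Q = ∑ k ∈ Finset.range (n + 1),
        (aeval s' (q k) - aeval w (q k)) * (x - algebraMap M Ω a) ^ k := by
      rw [← sub_zero (aevalAeval s' x Q), ← hQw, hsum, hsum, ← Finset.sum_sub_distrib]
      exact Finset.sum_congr rfl fun k _ => by ring
    rw [← le_div_iff₀ hR'0]
    refine (show V = _ from by rw [hV, h1]).le.trans ?_
    refine IsUltrametricDist.norm_sum_le_of_forall_le_of_nonneg (by positivity) ?_
    intro k _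
    rw [norm_mul, norm_pow, ← hR, le_div_iff₀ hR'0]
    calc ‖aeval s' (q k) - aeval w (q k)‖ * R ^ k * R'
        = (‖aeval s' (q k) - aeval w (q k)‖ * R') * R ^ k := by ring
      _ ≤ ((R' / ρ) ^ m * ‖aeval s' (q k)‖ * ‖s' - w‖) * R ^ k :=
          mul_le_mul_of_nonneg_right (hdiff k) (by positivity)
      _ = (R' / ρ) ^ m * ‖s' - w‖ * (‖aeval s' (q k)‖ * R ^ k) := by ring
      _ ≤ (R' / ρ) ^ m * ‖s' - w‖ * ((R / r) ^ n * V) :=
          mul_le_mul_of_nonneg_left (hout k) (by positivity)
      _ = A * V * ‖s' - w‖ := by rw [hA]; ring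
  have hfin2 : R' ≤ A * ‖s' - w‖ := by
    have : V * R' ≤ V * (A * ‖s' - w‖) := by linarith
    exact le_of_mul_le_mul_left this hV0
  have hAθ : A ≤ θ ^ (n + m) := by
    rw [hA, pow_add, mul_comm]
    have h1 : R / r ≤ θ := (div_le_iff₀ hr).2 ha.le
    have h2 : R' / ρ ≤ θ := (div_le_iff₀ hρ).2 hb.le
    gcongr
  have : A * ‖s' - w‖ ≤ θ ^ (n + m) * ‖s' - w‖ := mul_le_mul_of_nonneg_right hAθ (norm_nonneg _)
  linarith

end Pool.Agent.Q62.TTD
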